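import Mathlib
import Pool.Agent.Q203.ClosedRange

open scoped InnerProductSpace ComplexConjugate
open Pool.Agent.Q203.ClosedRange

namespace Pool.Agent.Results.MP_790317_an.NoneClosed

variable {𝕜 : Type} [RCLike 𝕜]

theorem adj_mem {E F : Type} [NormedAddCommGroup E] [InnerProductSpace 𝕜 E]
    [NormedAddCommGroup F] [InnerProductSpace 𝕜 F] [CompleteSpace E]
    (R : E →ₗ.[𝕜] F) (hR : Dense (R.domain : Set E)) {y : F} {w : E}
    (h : ∀ x : R.domain, inner 𝕜 w (x : E) = inner 𝕜 y (R x)) :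
    ∃ hy : y ∈ R.adjoint.domain, R.adjoint ⟨y, hy⟩ = w :=
  ⟨LinearPMap.mem_adjoint_domain_of_exists y ⟨w, h⟩,
    LinearPMap.adjoint_apply_eq hR _ h⟩

theorem adj_formal {E F : Type} [NormedAddCommGroup E] [InnerProductSpace 𝕜 E]
    [NormedAddCommGroup F] [InnerProductSpace 𝕜 F] [CompleteSpace E]
    (R : E →ₗ.[𝕜] F) (hR : Dense (R.domain : Set E)) (u : R.adjoint.domain) (x : R.domain) :
    inner 𝕜 (R.adjoint u) (x : E) = inner 𝕜 (u : F) (R x) :=
  LinearPMap.adjoint_isFormalAdjoint hR u x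

theorem le_neg_adj {E F : Type} [NormedAddCommGroup E] [InnerProductSpace 𝕜 E]
    [NormedAddCommGroup F] [InnerProductSpace 𝕜 F] [CompleteSpace E]
    (R : E →ₗ.[𝕜] F) (hR : Dense (R.domain : Set E)) (Q : F →ₗ.[𝕜] E)
    (h : ∀ x : Q.domain, ∀ y : R.domain, inner 𝕜 (-(Q x)) (y : E) = inner 𝕜 (x : F) (R y)) :
    Q ≤ -(R.adjoint) := by
  refine ⟨fun x hx => ?_, fun x y hxy => ?_⟩
  · rw [LinearPMap.neg_domain]
    exact LinearPMap.mem_adjoint_domain_of_exists _ ⟨-(Q ⟨x, hx⟩), h ⟨x, hx⟩⟩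
  · rw [LinearPMap.neg_apply]
    have h2 : R.adjoint y = -(Q x) := by
      refine LinearPMap.adjoint_apply_eq hR y fun z => ?_
      rw [h x z, hxy]
    rw [h2, neg_neg]

/-- The relation between the adjoint of `B = -S` and `S`. -/
theorem S_le : S 𝕜 ≤ -((B 𝕜).adjoint) := by
  have key : ∀ x : (S 𝕜).domain, ∀ y : (B 𝕜).domain,
      inner 𝕜 (-(S 𝕜 x)) (y : H 𝕜) = inner 𝕜 (x : H 𝕜) (B 𝕜 y) := by
    intro x y
    have h1 := symm (S_mem x).1 (B_mem y).1
    rw [inner_neg_left, h1, inner_neg_right, neg_neg]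
  exact le_neg_adj (B 𝕜) B_dense (S 𝕜) key

theorem ext : ClosedRangeExtension (S 𝕜) (B 𝕜) := by
  refine ⟨H 𝕜, H 𝕜, inferInstance, inferInstance, inferInstance, inferInstance, inferInstance,
    inferInstance, T 𝕜, LinearIsometry.id, LinearIsometry.id, T_dense, T_closed 𝕜,
    ?_, ?_, ?_⟩
  · have h := T_range_closed (𝕜 := 𝕜)
    exact h
  · rw [closure_eq 𝕜 _ (S_closed 𝕜)]
    intro x
    refine ⟨(S_le_T (𝕜 := 𝕜)).1 x.2, ?_⟩
    exact ((S_le_T (𝕜 := 𝕜)).2 rfl).symm
  · rw [closure_eq 𝕜 _ (B_closed 𝕜)]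
    intro y
    have key : ∀ z : (T 𝕜).domain,
        inner 𝕜 (-(B 𝕜 y)) (z : H 𝕜) = inner 𝕜 (y : H 𝕜) (T 𝕜 z) := by
      intro z
      exact symm (B_mem y).1 (fun p => T_mem z p)
    obtain ⟨hm, h2⟩ := adj_mem (T 𝕜) T_dense (y := (y : H 𝕜)) (w := -(B 𝕜 y)) key
    refine ⟨hm, ?_⟩
    change -((T 𝕜).adjoint ⟨(y : H 𝕜), hm⟩) = B 𝕜 y
    rw [h2, neg_neg]

theorem S_range_not_closed : ¬ IsClosed (Set.range (fun x : (S 𝕜).domain => S 𝕜 x)) := by
  intro hcl
  let K : Submodule 𝕜 (H 𝕜) := LinearMap.range (S 𝕜).toFun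
  have hK : (K : Set (H 𝕜)) = Set.range (fun x : (S 𝕜).domain => S 𝕜 x) := by
    ext x
    simp only [K, SetLike.mem_coe, LinearMap.mem_range, Set.mem_range]
    rfl
  have h1 : col 𝕜 1 ∈ K := by
    refine col_mem K (by rw [hK]; exact hcl) 1 fun k => ?_
    obtain ⟨x, -, hx⟩ := exists_S (test_mem (𝕜 := 𝕜) k 1 one_ne_zero)
    refine ⟨x, ?_⟩
    change S 𝕜 x = _
    rw [hx]
    simp
  obtain ⟨x, hx⟩ := h1
  have hx' : S 𝕜 x = col 𝕜 1 := hx
  have hmem := S_mem x
  rw [hx'] at hmem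
  have h2 : ∀ k : ℕ, (x : H 𝕜) (k, 0) = -1 := by
    intro k
    have h3 := hmem.2 k
    simp only at h3
    have h4 : inner 𝕜 (g 𝕜 k) (col 𝕜 1) = ((k : 𝕜) + 1)⁻¹ := by
      rw [lp.inner_eq_tsum, tsum_eq_single (k, 1)]
      · rw [g_apply, col_apply]
        simp
      · intro p hp
        rw [g_apply, col_apply]
        by_cases h5 : p.1 = k
        · by_cases h6 : p.2 = 1
          · exact absurd (Prod.ext h5 h6) hp
          · simp [h6]
        · simp [h5]
    have h7 : ((k : 𝕜) + 1) ≠ 0 := Nat.cast_add_one_ne_zero k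
    rw [h4, mul_inv_cancel₀ h7] at h3
    exact eq_neg_of_add_eq_zero_left h3
  have h1 : Summable fun p => ‖(x : H 𝕜) p‖ ^ 2 := by
    have h2 := (lp.memℓp (x : H 𝕜)).summable (by norm_num)
    simpa using h2
  have hinj : Function.Injective (fun n : ℕ => ((n, 0) : ℕ × ℕ)) := by
    intro a b h
    simpa using h
  have h2' := (h1.comp_injective hinj).tendsto_atTop_zero
  simp only [Function.comp_def, h2, norm_neg, norm_one, one_pow] at h2'
  have := tendsto_nhds_unique h2' tendsto_const_nhds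
  norm_num at this

/-- Elements of the range of the adjoint. -/
theorem single_mem_range (k : ℕ) : lp.single 2 (k, 0) (1 : 𝕜) ∈
    LinearMap.range ((B 𝕜).adjoint).toFun := by
  have key : ∀ x : (B 𝕜).domain,
      inner 𝕜 (lp.single 2 (k, 0) (1 : 𝕜)) (x : H 𝕜) =
        inner 𝕜 ((((k : 𝕜) + 1)) • g 𝕜 k) (B 𝕜 x) := by
    intro x
    have h := (B_mem x).2 k
    simp only [inner_neg_right] at h
    rw [lp.inner_single_left, inner_smul_left]
    simp only [RCLike.inner_apply, map_one, mul_one, map_add, map_natCast]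
    linear_combination h
  obtain ⟨hm, h2⟩ := adj_mem (B 𝕜) B_dense (y := (((k : 𝕜) + 1)) • g 𝕜 k)
    (w := lp.single 2 (k, 0) (1 : 𝕜)) key
  exact ⟨⟨_, hm⟩, h2⟩

theorem adj_range_not_closed :
    ¬ IsClosed (Set.range (fun x : (-((B 𝕜).adjoint)).domain => (-((B 𝕜).adjoint)) x)) := by
  intro hcl
  let K : Submodule 𝕜 (H 𝕜) := LinearMap.range ((B 𝕜).adjoint).toFun
  have hK : (K : Set (H 𝕜)) =
      Set.range (fun x : (-((B 𝕜).adjoint)).domain => (-((B 𝕜).adjoint)) x) := by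
    ext w
    simp only [K, SetLike.mem_coe, LinearMap.mem_range, Set.mem_range]
    constructor
    · rintro ⟨x, hx⟩
      refine ⟨-x, ?_⟩
      rw [LinearPMap.neg_apply]
      have : (B 𝕜).adjoint (-x) = -((B 𝕜).adjoint x) := map_neg _ _
      rw [this, neg_neg]
      exact hx
    · rintro ⟨x, hx⟩
      refine ⟨-x, ?_⟩
      rw [LinearPMap.neg_apply] at hx
      have : (B 𝕜).adjoint.toFun (-x) = -((B 𝕜).adjoint.toFun x) := map_neg _ _
      rw [this]
      exact hx
  have h1 : col 𝕜 0 ∈ K :=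
    col_mem K (by rw [hK]; exact hcl) 0 fun k => single_mem_range k
  obtain ⟨u, hu⟩ := h1
  have hu' : (B 𝕜).adjoint u = col 𝕜 0 := hu
  have h2 : ∀ k : ℕ, (u : H 𝕜) (k, 1) = 1 := by
    intro k
    obtain ⟨x, hx, hBx⟩ := exists_B (test_mem (𝕜 := 𝕜) k 1 one_ne_zero)
    have h3 := adj_formal (B 𝕜) B_dense u x
    have h7 : ((k : 𝕜) + 1) ≠ 0 := Nat.cast_add_one_ne_zero k
    rw [hu', hx, hBx, inner_sub_right, inner_smul_right, lp.inner_single_right,
      lp.inner_single_right, inner_neg_right, inner_smul_right, lp.inner_single_right,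
      col_apply, col_apply] at h3
    simp [h7] at h3
    have h8 : conj ((u : H 𝕜) (k, 1)) = conj (1 : 𝕜) := by
      rw [map_one]
      exact h3.symm
    exact (starRingEnd 𝕜).injective h8
  have h1 : Summable fun p => ‖(u : H 𝕜) p‖ ^ 2 := by
    have h2 := (lp.memℓp (u : H 𝕜)).summable (by norm_num)
    simpa using h2
  have hinj : Function.Injective (fun n : ℕ => ((n, 1) : ℕ × ℕ)) := by
    intro a b h
    simpa using h
  have h2' := (h1.comp_injective hinj).tendsto_atTop_zero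
  simp only [Function.comp_def, h2, norm_one, one_pow] at h2'
  have := tendsto_nhds_unique h2' tendsto_const_nhds
  norm_num at this

/-- There are a Hilbert space `H` and densely defined operators `A_c`, `B_c` on `H` with
`A_c ⊆ -B_c*` admitting a closed-range extension such that neither the range of `A₀` (the closure
of `A_c`) nor the range of `A = -B₀*` (with `B₀` the closure of `B_c`) is closed. -/
theorem _root_.Pool.Agent.Results.MP_790317_an.NoneClosed.result (𝕜 : Type) [RCLike 𝕜] :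
    ∃ (E : Type) (_ : NormedAddCommGroup E) (_ : InnerProductSpace 𝕜 E) (_ : CompleteSpace E)
      (A_c B_c : E →ₗ.[𝕜] E), AdmissiblePair A_c B_c ∧ ClosedRangeExtension A_c B_c ∧
      ¬ HasClosedRange A_c.closure ∧ ¬ HasClosedRange (-(B_c.closure.adjoint)) := by
  refine ⟨H 𝕜, inferInstance, inferInstance, inferInstance, S 𝕜, B 𝕜,
    ⟨S_dense, B_dense, S_le⟩, ext, ?_, ?_⟩
  · rw [closure_eq 𝕜 _ (S_closed 𝕜)]
    exact S_range_not_closed
  · rw [closure_eq 𝕜 _ (B_closed 𝕜)]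
    exact adj_range_not_closed

end Pool.Agent.Results.MP_790317_an.NoneClosed
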